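import Pool.Agent.W394.BQN.Stm

/-!
# BQN-VV: transitivity of elementary operations passes to `VV D` (helper359)
-/

set_option autoImplicit false

open Polynomial

noncomputable section

namespace Pool.Agent.W359.BQN

open BQ Pool.Agent.W394.BQN

theorem cop_GG {R : Type} [CommRing R] {M : Matrix (Fin 2) (Fin 2) R} (hM : M ∈ GG R) :
    ∀ a b : R, IsCoprime a b →
      IsCoprime (a * M 0 0 + b * M 1 0) (a * M 0 1 + b * M 1 1) := by
  refine Submonoid.closure_induction (motive := fun M _ => ∀ a b : R, IsCoprime a b →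
    IsCoprime (a * M 0 0 + b * M 1 0) (a * M 0 1 + b * M 1 1)) ?_ ?_ ?_ hM
  · rintro M (⟨c, rfl⟩ | ⟨c, rfl⟩ | ⟨u, v, ⟨u, rfl⟩, ⟨v, rfl⟩, rfl⟩) a b ⟨α, β, h⟩
    · refine ⟨α - β * c, β, ?_⟩
      simp only [Matrix.of_apply, Matrix.cons_val', Matrix.cons_val_zero, Matrix.cons_val_one,
        Matrix.cons_val_fin_one]
      linear_combination h
    · refine ⟨α, β - α * c, ?_⟩
      simp only [Matrix.of_apply, Matrix.cons_val', Matrix.cons_val_zero, Matrix.cons_val_one,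
        Matrix.cons_val_fin_one]
      linear_combination h
    · refine ⟨α * (↑u⁻¹ : R), β * (↑v⁻¹ : R), ?_⟩
      simp only [Matrix.of_apply, Matrix.cons_val', Matrix.cons_val_zero, Matrix.cons_val_one,
        Matrix.cons_val_fin_one]
      linear_combination h + α * a * u.inv_mul + β * b * v.inv_mul
  · intro a b h
    simpa using h
  · intro M N _ _ hM hN a b h
    have h1 := hN _ _ (hM a b h)
    simp only [Matrix.mul_apply, Fin.sum_univ_two]
    have e1 : a * (M 0 0 * N 0 0 + M 0 1 * N 1 0) + b * (M 1 0 * N 0 0 + M 1 1 * N 1 0) =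
        (a * M 0 0 + b * M 1 0) * N 0 0 + (a * M 0 1 + b * M 1 1) * N 1 0 := by ring
    have e2 : a * (M 0 0 * N 0 1 + M 0 1 * N 1 1) + b * (M 1 0 * N 0 1 + M 1 1 * N 1 1) =
        (a * M 0 0 + b * M 1 0) * N 0 1 + (a * M 0 1 + b * M 1 1) * N 1 1 := by ring
    rw [e1, e2]
    exact h1

theorem clear {D : Type} [CommRing D] [IsDomain D] (p r : D[X])
    (h : IsCoprime (algebraMap D[X] (VV D) p) (algebraMap D[X] (VV D) r)) :
    ∃ x y : D[X], p * x + r * y ∈ S2 D := by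
  obtain ⟨α, β, h⟩ := h
  obtain ⟨⟨x, s⟩, hx⟩ := IsLocalization.surj (S2 D) α
  obtain ⟨⟨y, t⟩, hy⟩ := IsLocalization.surj (S2 D) β
  simp only at hx hy
  refine ⟨x * (t : D[X]), y * (s : D[X]), ?_⟩
  have e : p * (x * (t : D[X])) + r * (y * (s : D[X])) = (s : D[X]) * (t : D[X]) := by
    apply IsLocalization.injective (VV D) (E.S2_le D)
    simp only [map_add, map_mul]
    rw [← hx, ← hy]
    linear_combination (algebraMap D[X] (VV D) (s : D[X]) *
      algebraMap D[X] (VV D) (t : D[X])) * h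
  rw [e]
  exact mul_mem s.2 t.2

theorem unit_of {D : Type} [CommRing D] [IsDomain D] (p : D[X]) (h1 : IsUnit p.leadingCoeff)
    (h2 : IsUnit p.trailingCoeff) : IsUnit (algebraMap D[X] (VV D) p) := by
  obtain ⟨v, hv⟩ := h1
  obtain ⟨w, hw⟩ := h2
  set q : D[X] := C (↑v⁻¹ : D) * X + C (↑w⁻¹ : D) with hq
  have hv0 : (↑v⁻¹ : D) ≠ 0 := v⁻¹.ne_zero
  have hw0 : (↑w⁻¹ : D) ≠ 0 := w⁻¹.ne_zero
  have hlc : q.leadingCoeff = ↑v⁻¹ := leadingCoeff_linear hv0
  have hc0 : q.coeff 0 = ↑w⁻¹ := by simp [hq]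
  have htc : q.trailingCoeff = ↑w⁻¹ := by
    have : q.natTrailingDegree = 0 := by
      rw [natTrailingDegree_eq_zero]
      right
      rw [hc0]
      exact hw0
    rw [trailingCoeff, this, hc0]
  have hm : p * q ∈ S2 D := by
    refine ⟨?_, ?_⟩
    · rw [leadingCoeff_mul, hlc, ← hv, Units.mul_inv]
    · rw [trailingCoeff_mul, htc, ← hw, Units.mul_inv]
  have h3 := IsLocalization.map_units (VV D) (⟨p * q, hm⟩ : S2 D)
  rw [map_mul] at h3
  exact isUnit_of_mul_isUnit_left h3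

theorem t_VV (h1 : S_V1) (h2 : S_V2) (h3 : S_V3) : S_VV := by
  intro D _ _ _ hE a b hab
  obtain ⟨⟨p, s⟩, hp⟩ := IsLocalization.surj (S2 D) a
  obtain ⟨⟨r, t⟩, hr⟩ := IsLocalization.surj (S2 D) b
  simp only at hp hr
  set ι := algebraMap D[X] (VV D) with hι
  have hs : IsUnit (ι (s : D[X])) := IsLocalization.map_units (VV D) s
  have ht : IsUnit (ι (t : D[X])) := IsLocalization.map_units (VV D) t
  have hM0 : (!![ι (s : D[X]), 0; 0, ι (t : D[X])] : Matrix (Fin 2) (Fin 2) (VV D)) ∈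
      GG (VV D) := Submonoid.subset_closure (Or.inr (Or.inr ⟨_, _, hs, ht, rfl⟩))
  have hc0 : IsCoprime (ι p) (ι r) := by
    have := cop_GG hM0 a b hab
    simp only [Matrix.of_apply, Matrix.cons_val', Matrix.cons_val_zero, Matrix.cons_val_one,
      Matrix.cons_val_fin_one, mul_zero, add_zero, zero_add] at this
    rwa [hp, hr] at this
  obtain ⟨x, y, hxy⟩ := clear p r hc0
  obtain ⟨M, hM, p', r', hlc, hp', hr'⟩ := h2 D hE p r x y hxy
  have hc1 : IsCoprime (ι p') (ι r') := by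
    rw [hι, hp', hr']
    exact cop_GG hM _ _ hc0
  obtain ⟨x', y', hxy'⟩ := clear p' r' hc1
  obtain ⟨N, hN, p'', r'', hlc', htc', hp'', -⟩ := h3 D hE p' r' x' y' hxy' hlc
  have hu := unit_of p'' hlc' htc'
  refine h1 (VV D) a b ⟨!![ι (s : D[X]), 0; 0, ι (t : D[X])] * M * N,
    mul_mem (mul_mem hM0 hM) hN, ?_⟩
  have e : a * (!![ι (s : D[X]), 0; 0, ι (t : D[X])] * M * N) 0 0 +
      b * (!![ι (s : D[X]), 0; 0, ι (t : D[X])] * M * N) 1 0 = ι p'' := by
    rw [hι, hp'', hp', hr', ← hι, ← hp, ← hr]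
    simp only [Matrix.mul_apply, Fin.sum_univ_two, Matrix.of_apply, Matrix.cons_val',
      Matrix.cons_val_zero, Matrix.cons_val_one, Matrix.cons_val_fin_one]
    ring
  rw [e]
  exact hu

end Pool.Agent.W359.BQN
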